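import Pool.Agent.helper97.IRO.Spec

set_option autoImplicit false

/-!
# Row iro:FN4 (MP_90e158_lc)
-/

open MeasureTheory Pool.Agent.LOF

namespace Pool.Agent.IRO

lemma FN4_conj (g : F) : Measurable (conj g : LO F → LO F) := by
  refine Measurable.subtype_mk ?_
  rw [measurable_pi_iff]
  intro p
  exact (measurable_pi_apply (p.1 * g, p.2 * g)).comp measurable_subtype_coe

lemma FN4_act (g : F) : Measurable (actS g) := by
  rw [measurable_pi_iff]
  intro y
  exact measurable_pi_apply _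

theorem FN4 (hDF4 : DF4_stmt) (hFN1 : FN1_stmt) (hFN2 : FN2_stmt) (hFN3 : FN3_stmt) : FN4_stmt := by
  intro ν _ hν hae
  obtain ⟨Ψ, hΨ, hΨO⟩ := hFN1
  have hinv : InvS Q (ν.map Ψ) := by
    intro g
    have hm : Measurable (fun z : Q × (D → Bool) => (z.1, actS g z.2)) :=
      measurable_fst.prodMk ((FN4_act g).comp measurable_snd)
    rw [Measure.map_map hm hΨ]
    have e1 : ((fun z : Q × (D → Bool) => (z.1, actS g z.2)) ∘ Ψ) =ᵐ[ν] (Ψ ∘ conj g) := by
      filter_upwards [hae] with r hr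
      obtain ⟨q, ε, rfl⟩ := hr
      simp only [Function.comp_apply]
      rw [hFN2, hΨO, hΨO]
    rw [Measure.map_congr e1, ← Measure.map_map hΨ (FN4_conj g), hν g]
  obtain ⟨m, hm1, hm2⟩ := hDF4 Q (ν.map Ψ) hinv
  refine ⟨m, hm1, ?_⟩
  intro A hA
  have hO : Measurable fun z : Q × (D → Bool) => Ord z.1 z.2 := hFN3
  have e2 : ν A = (ν.map Ψ) ((fun z : Q × (D → Bool) => Ord z.1 z.2) ⁻¹' A) := by
    rw [Measure.map_apply hΨ (hO hA)]
    refine measure_congr ?_
    filter_upwards [hae] with r hr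
    obtain ⟨q, ε, rfl⟩ := hr
    rw [eq_iff_iff]
    show Ord q ε ∈ A ↔ Ord (Ψ (Ord q ε)).1 (Ψ (Ord q ε)).2 ∈ A
    rw [hΨO]
  rw [e2, hm2 _ (hO hA)]
  refine lintegral_congr fun w => ?_
  have hO2 : Measurable fun ε : D → Bool => Ord w.1 ε := hO.comp (measurable_const.prodMk measurable_id)
  have e3 : (fun ε : D → Bool => if true = true then Ord w.1 ε else pull (Ord w.1 ε)) = fun ε => Ord w.1 ε := by
    funext ε
    simp
  unfold law
  rw [e3, Measure.map_apply hO2 hA]
  rfl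

end Pool.Agent.IRO
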