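import Pool.Agent.helper97.IRO.Spec

set_option autoImplicit false

/-!
# Row iro:GE6 (MP_90e158_lc)
-/

open MeasureTheory Pool.Agent.LOF

namespace Pool.Agent.IRO

theorem GE6 (hGE3 : GE3_stmt) (hGE4 : GE4_stmt) (hGE5 : GE5_stmt) : GE6_stmt := by
  intro g hg
  obtain ⟨m, hm⟩ := hGE5 g hg
  obtain ⟨s, hs, hs1, hs2⟩ := hGE4 m
  have hN : 1 ≤ 2 ^ m := Nat.one_le_two_pow
  have k1 : s ∈ Subgroup.closure {X0, xx 1} := by
    refine hGE3 (2 ^ m) s hN hs ?_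
    intro i hi
    refine ⟨hs2 i hi, m, i, hs1 i hi.le, ?_⟩
    rw [hs1 (i + 1) hi]
    push_cast
    ring
  have k2 : g * s ∈ Subgroup.closure {X0, xx 1} := by
    refine hGE3 (2 ^ m) (g * s) hN (mul_mem hg hs) ?_
    intro i hi
    obtain ⟨⟨j1, c1, h1⟩, m1, k, h2, h3⟩ := hm i (by exact_mod_cast hi)
    obtain ⟨j2, c2, h4⟩ := hs2 i hi
    have e1 : s (cb (2 ^ m) i) = (i : ℝ) / 2 ^ m := hs1 i hi.le
    have e2 : s (cb (2 ^ m) (i + 1)) = ((i : ℝ) + 1) / 2 ^ m := by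
      rw [hs1 (i + 1) hi]
      push_cast
      ring
    refine ⟨⟨j1 + j2, 2 ^ j1 * c2 + c1, ?_⟩, m1, k, ?_, ?_⟩
    · intro z hz
      show g (s z) = _
      have h5 : s z ∈ Set.Icc ((i : ℝ) / 2 ^ m) (((i : ℝ) + 1) / 2 ^ m) := by
        rw [← e1, ← e2]
        exact ⟨s.monotone hz.1, s.monotone hz.2⟩
      rw [h1 _ h5, h4 z hz, zpow_add₀ (by norm_num : (2 : ℝ) ≠ 0)]
      ring
    · show g (s _) = _
      rw [e1]
      exact h2
    · show g (s _) = _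
      rw [e2]
      exact h3
  have k3 := mul_mem k2 (inv_mem k1)
  rwa [mul_inv_cancel_right] at k3

end Pool.Agent.IRO
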